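import Mathlib

set_option autoImplicit false
open Cardinal Order Set

universe u v w

namespace Pool.Agent.Results.MP_028983_lc.DeltaAll

/-- The set `I(κ)`: an injection from an ordinal `dom < κ⁺` (the set of ordinals below `dom`)
into `κ` (the set of ordinals below the initial ordinal of `κ`). -/
structure InjFun (κ : Cardinal.{u}) where
  /-- the domain, an ordinal below `κ⁺` -/
  dom : Ordinal.{u}
  dom_lt : dom < (succ κ).ord
  /-- the function itself -/
  toFun : Set.Iio dom → Set.Iio κ.ord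
  inj : Function.Injective toFun

/-- The principle `Δ(κ)`. -/
def Delta (κ : Cardinal.{u}) : Prop :=
  ∀ D : InjFun κ → Set Ordinal.{u},
    (∀ f, D f ⊆ Set.Iio f.dom ∧ #(D f) < Cardinal.lift.{u + 1} κ) →
    ∃ F : Set.Iio (succ κ).ord → InjFun κ,
      (∀ a b, a < b → (F a).dom < (F b).dom) ∧
      ∀ (a b : Set.Iio (succ κ).ord) (ξ : Ordinal.{u}) (ha : ξ < (F a).dom) (hb : ξ < (F b).dom),
        ξ ∈ D (F a) → ξ ∈ D (F b) → (F a).toFun ⟨ξ, ha⟩ = (F b).toFun ⟨ξ, hb⟩

/-- Transfinite dependent choice along a well-order. -/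
lemma exists_seq {J : Type v} {X : Type w} [LinearOrder J] [WellFoundedLT J] [Nonempty X]
    (R : J → X → Prop) (S : X → X → Prop)
    (h : ∀ (j : J) (g : J → X), (∀ i < j, R i (g i)) → (∀ i i', i < i' → i' < j → S (g i) (g i')) →
      ∃ x, R j x ∧ ∀ i < j, S (g i) x) :
    ∃ s : J → X, (∀ j, R j (s j)) ∧ ∀ i j, i < j → S (s i) (s j) := by
  classical
  let F : (j : J) → ((i : J) → i < j → X) → X := fun j prev =>
    if hx : ∃ x, R j x ∧ ∀ (i : J) (hi : i < j), S (prev i hi) x then hx.choose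
    else Classical.arbitrary X
  let s : J → X := (wellFounded_lt (α := J)).fix F
  have hs : ∀ j, s j = F j (fun i _ => s i) := fun j => (wellFounded_lt (α := J)).fix_eq F j
  have key : ∀ j, R j (s j) ∧ ∀ i < j, S (s i) (s j) := by
    intro j
    induction j using WellFoundedLT.induction with
    | ind j ih =>
      have hx : ∃ x, R j x ∧ ∀ (i : J) (_ : i < j), S (s i) x :=
        h j s (fun i hi => (ih i hi).1) (fun i i' hii hi' => (ih i' hi').2 i hii)
      have hsj : s j = hx.choose := by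
        rw [hs]
        simp only [F]
        rw [dif_pos hx]
      rw [hsj]
      exact hx.choose_spec
  exact ⟨s, fun j => (key j).1, fun i j hij => (key j).2 i hij⟩

section Main

variable {κ : Cardinal.{u}}

/-- Total extension of a partial function, for convenience. -/
noncomputable def ext (z : Set.Iio κ.ord) (f : InjFun κ) (ξ : Ordinal.{u}) : Set.Iio κ.ord := by
  classical exact if h : ξ < f.dom then f.toFun ⟨ξ, h⟩ else z

lemma ext_eq (z : Set.Iio κ.ord) (f : InjFun κ) {ξ : Ordinal.{u}} (h : ξ < f.dom) :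
    ext z f ξ = f.toFun ⟨ξ, h⟩ := by
  unfold ext
  rw [dif_pos h]

lemma ext_inj (z : Set.Iio κ.ord) (f : InjFun κ) {ξ η : Ordinal.{u}} (h : ξ < f.dom)
    (h' : η < f.dom) (he : ext z f ξ = ext z f η) : ξ = η := by
  rw [ext_eq z f h, ext_eq z f h'] at he
  exact congrArg Subtype.val (f.inj he)

/-- Build an element of `I(κ)` from a total function. -/
def ofFun (τ : Ordinal.{u}) (hτ : τ < (succ κ).ord) (G : Ordinal.{u} → Set.Iio κ.ord)
    (hG : ∀ ξ < τ, ∀ η < τ, G ξ = G η → ξ = η) : InjFun κ where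
  dom := τ
  dom_lt := hτ
  toFun := fun ξ => G ξ.1
  inj := fun ξ η h => Subtype.ext (hG ξ.1 ξ.2 η.1 η.2 h)

/-- `g` is an initial segment of `f`. -/
def Ext (z : Set.Iio κ.ord) (g f : InjFun κ) : Prop :=
  g.dom ≤ f.dom ∧ ∀ ξ < g.dom, ext z f ξ = ext z g ξ

/-- Families of `κ` ordinals below `κ⁺` are bounded. -/
lemma exists_bound (hκ : ℵ₀ ≤ κ) {ι : Type u} (hι : #ι ≤ κ) (f : ι → Ordinal.{u})
    (hf : ∀ i, f i < (succ κ).ord) : ∃ τ < (succ κ).ord, ∀ i, f i < τ := by
  have hreg : (succ κ).IsRegular := isRegular_succ hκ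
  have h1 : iSup f < (succ κ).ord :=
    Ordinal.iSup_lt_of_lt_cof (by rw [hreg.cof_ord]; exact hι.trans_lt (lt_succ κ)) hf
  have hlim : Order.IsSuccLimit (succ κ).ord := Cardinal.isSuccLimit_ord (hκ.trans (le_succ κ))
  exact ⟨succ (iSup f), hlim.succ_lt h1, fun i => lt_succ_iff.2 (Ordinal.le_iSup f i)⟩

/-- There is an injection `g` such that arbitrarily long extensions `f` of `g` have the part of
`D f` below an arbitrarily large ordinal inside the domain of `g`. -/
lemma exists_good (hκ : ℵ₀ ≤ κ) (D : InjFun κ → Set Ordinal.{u})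
    (hD : ∀ f, #(D f) < Cardinal.lift.{u + 1} κ) (z : Set.Iio κ.ord) :
    ∃ g : InjFun κ, ∀ δ < (succ κ).ord, ∃ f, Ext z g f ∧ δ < f.dom ∧
      ∀ ξ ∈ D f, ξ < δ → ξ < g.dom := by
  classical
  by_contra hcon
  push Not at hcon
  choose δ hδ1 hδ2 using hcon
  have hΩ : (0 : Ordinal.{u}) < (succ κ).ord := by
    rw [Cardinal.lt_ord, Ordinal.card_zero]
    exact (aleph0_pos.trans_le hκ).trans (lt_succ κ)
  let K : Type u := κ.ord.ToType
  have hK : #K = κ := Cardinal.mk_ord_toType _
  let J : Type u := WithTop K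
  have hJ : #J ≤ κ := by
    show #(Option K) ≤ κ
    rw [Cardinal.mk_option, hK]
    exact (Cardinal.add_one_eq hκ).le
  obtain ⟨p⟩ : Nonempty (J × K ↪ Set.Iio κ.ord) := by
    rw [← Cardinal.lift_mk_le'.{u, u + 1}, Cardinal.mk_Iio_ordinal, Cardinal.card_ord]
    have h1 : #(J × K) ≤ κ := by
      rw [Cardinal.mk_prod, Cardinal.lift_id, Cardinal.lift_id, hK]
      exact (mul_le_mul' hJ le_rfl).trans (Cardinal.mul_eq_self hκ).le
    have h2 : Cardinal.lift.{u + 1, u} #(J × K) ≤ Cardinal.lift.{u + 1, u} κ :=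
      Cardinal.lift_le.2 h1
    simpa using h2
  have he : ∀ τ : Ordinal.{u}, τ < (succ κ).ord →
      ∃ e : Ordinal.{u} → K, ∀ ξ < τ, ∀ η < τ, e ξ = e η → ξ = η := by
    intro τ hτ
    have hcard : τ.card ≤ κ := by
      rw [Cardinal.lt_ord] at hτ
      exact lt_succ_iff.1 hτ
    obtain ⟨q⟩ : Nonempty (Set.Iio τ ↪ K) := by
      rw [← Cardinal.lift_mk_le'.{u + 1, u}, Cardinal.mk_Iio_ordinal, hK]
      have h2 : Cardinal.lift.{u + 1, u} τ.card ≤ Cardinal.lift.{u + 1, u} κ :=
        Cardinal.lift_le.2 hcard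
      simpa using h2
    have hKne : Nonempty K := by
      rw [← Cardinal.mk_ne_zero_iff, hK]
      exact (aleph0_pos.trans_le hκ).ne'
    refine ⟨fun ξ => if h : ξ < τ then q ⟨ξ, h⟩ else Classical.arbitrary K, ?_⟩
    intro ξ hξ η hη h
    simp only [dif_pos hξ, dif_pos hη] at h
    exact congrArg Subtype.val (q.injective h)
  choose e he using he
  have hX : Nonempty (InjFun κ) :=
    ⟨ofFun 0 hΩ (fun _ => z) (fun ξ hξ => absurd hξ not_lt_zero)⟩
  obtain ⟨s, -, hs⟩ := exists_seq (J := J) (X := InjFun κ)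
    (R := fun j x => ∀ ζ < x.dom, ∃ i ≤ j, ∃ c, ext z x ζ = p (i, c))
    (S := fun g x => Ext z g x ∧ δ g < x.dom) (by
      intro j g hR hS
      obtain ⟨τ, hτ, hτb⟩ := exists_bound hκ hJ
        (fun i => if i < j then max (g i).dom (δ (g i)) else 0) (by
          intro i
          show (if i < j then max (g i).dom (δ (g i)) else 0) < (succ κ).ord
          split_ifs
          · exact max_lt (g i).dom_lt (hδ1 (g i))
          · exact hΩ)
      have hb1 : ∀ i < j, (g i).dom < τ ∧ δ (g i) < τ := by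
        intro i hi
        have := hτb i
        simp only [if_pos hi] at this
        exact max_lt_iff.1 this
      let G : Ordinal.{u} → Set.Iio κ.ord := fun ζ =>
        if h : ∃ i, i < j ∧ ζ < (g i).dom then ext z (g h.choose) ζ else p (j, e τ hτ ζ)
      have hGold : ∀ i < j, ∀ ζ < (g i).dom, G ζ = ext z (g i) ζ := by
        intro i hi ζ hζ
        have hex : ∃ i, i < j ∧ ζ < (g i).dom := ⟨i, hi, hζ⟩
        have h1 : G ζ = ext z (g hex.choose) ζ := by
          simp only [G]
          rw [dif_pos hex]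
        rw [h1]
        obtain ⟨h2, h3⟩ := hex.choose_spec
        rcases lt_trichotomy i hex.choose with h | h | h
        · exact (hS _ _ h h2).1.2 ζ hζ
        · rw [← h]
        · exact ((hS _ _ h hi).1.2 ζ h3).symm
      have hGnew : ∀ ζ, (¬ ∃ i, i < j ∧ ζ < (g i).dom) → G ζ = p (j, e τ hτ ζ) := by
        intro ζ hζ
        simp only [G]
        rw [dif_neg hζ]
      have hGinj : ∀ ξ < τ, ∀ η < τ, G ξ = G η → ξ = η := by
        intro ξ hξ η hη hGG
        by_cases h1 : ∃ i, i < j ∧ ξ < (g i).dom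
        · obtain ⟨i, hi, hξi⟩ := h1
          by_cases h2 : ∃ i, i < j ∧ η < (g i).dom
          · obtain ⟨i', hi', hηi⟩ := h2
            -- use the larger index
            rcases lt_trichotomy i i' with h | h | h
            · have hle := (hS i i' h hi').1.1
              rw [hGold i' hi' ξ (hξi.trans_le hle), hGold i' hi' η hηi] at hGG
              exact ext_inj z (g i') (hξi.trans_le hle) hηi hGG
            · subst h
              rw [hGold i hi ξ hξi, hGold i hi η hηi] at hGG
              exact ext_inj z (g i) hξi hηi hGG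
            · have hle := (hS i' i h hi).1.1
              rw [hGold i hi ξ hξi, hGold i hi η (hηi.trans_le hle)] at hGG
              exact ext_inj z (g i) hξi (hηi.trans_le hle) hGG
          · rw [hGold i hi ξ hξi, hGnew η h2] at hGG
            obtain ⟨i', hi', c, hc⟩ := hR i hi ξ hξi
            rw [hc] at hGG
            have := (Prod.ext_iff.1 (p.injective hGG)).1
            simp only at this
            exact absurd (hi'.trans_lt hi) (by rw [this]; exact lt_irrefl j)
        · by_cases h2 : ∃ i, i < j ∧ η < (g i).dom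
          · obtain ⟨i, hi, hηi⟩ := h2
            rw [hGold i hi η hηi, hGnew ξ h1] at hGG
            obtain ⟨i', hi', c, hc⟩ := hR i hi η hηi
            rw [hc] at hGG
            have := (Prod.ext_iff.1 (p.injective hGG)).1
            simp only at this
            exact absurd (hi'.trans_lt hi) (by rw [← this]; exact lt_irrefl j)
          · rw [hGnew ξ h1, hGnew η h2] at hGG
            have := (Prod.ext_iff.1 (p.injective hGG)).2
            exact he τ hτ ξ hξ η hη this
      have hext : ∀ ζ < τ, ext z (ofFun τ hτ G hGinj) ζ = G ζ := by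
        intro ζ hζ
        exact ext_eq z (ofFun τ hτ G hGinj) hζ
      refine ⟨ofFun τ hτ G hGinj, ?_, ?_⟩
      · intro ζ hζ
        rw [hext ζ hζ]
        by_cases h1 : ∃ i, i < j ∧ ζ < (g i).dom
        · obtain ⟨i, hi, hζi⟩ := h1
          rw [hGold i hi ζ hζi]
          obtain ⟨i', hi', c, hc⟩ := hR i hi ζ hζi
          exact ⟨i', hi'.trans hi.le, c, hc⟩
        · exact ⟨j, le_rfl, _, hGnew ζ h1⟩
      · intro i hi
        refine ⟨⟨(hb1 i hi).1.le, ?_⟩, (hb1 i hi).2⟩
        intro ζ hζ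
        rw [hext ζ (hζ.trans (hb1 i hi).1)]
        exact hGold i hi ζ hζ)
  -- every level below the top contributes a new point of `D (s ⊤)`
  have htop : ∀ k : K, ∃ ξ ∈ D (s ⊤), ξ < δ (s (k : WithTop K)) ∧ (s (k : WithTop K)).dom ≤ ξ := by
    intro k
    obtain ⟨h1, h2⟩ := hs (k : WithTop K) ⊤ (WithTop.coe_lt_top k)
    obtain ⟨ξ, h3, h4, h5⟩ := hδ2 (s (k : WithTop K)) (s ⊤) h1 h2
    exact ⟨ξ, h3, h4, h5⟩
  choose ξ hξD hξ1 hξ2 using htop
  have hmono : ∀ k k' : K, k < k' → ξ k < ξ k' := by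
    intro k k' hkk
    have h1 := (hs (k : WithTop K) (k' : WithTop K) (WithTop.coe_lt_coe.2 hkk)).2
    exact (hξ1 k).trans (h1.trans_le (hξ2 k'))
  have hinj : Function.Injective (fun k : K => (⟨ξ k, hξD k⟩ : D (s ⊤))) := by
    intro k k' h
    have h0 : ξ k = ξ k' := congrArg Subtype.val h
    rcases lt_trichotomy k k' with h1 | h1 | h1
    · exact absurd h0 (hmono k k' h1).ne
    · exact h1
    · exact absurd h0.symm (hmono k' k h1).ne
  have hle := Cardinal.lift_mk_le_lift_mk_of_injective hinj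
  rw [hK] at hle
  have h1 := hD (s ⊤)
  have h2 : Cardinal.lift.{u + 1} κ ≤ #(D (s ⊤)) := by
    rw [Cardinal.lift_id'.{u, u + 1}] at hle
    exact hle
  exact absurd h1 (not_lt.2 h2)

/-- Auxiliary recursion: ordinals growing faster than `h`. -/
noncomputable def aseq (h : Ordinal.{u} → Ordinal.{u}) (α : Ordinal.{u}) : Ordinal.{u} :=
  ⨆ i : α.ToType, succ (h (aseq h (Ordinal.ToType.toOrd i).1))
termination_by α
decreasing_by exact (Ordinal.ToType.toOrd i).2

lemma aseq_lt (h : Ordinal.{u} → Ordinal.{u}) {α β : Ordinal.{u}} (hβ : β < α) :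
    h (aseq h β) < aseq h α := by
  rw [aseq.eq_1 h α, Ordinal.lt_iSup_iff]
  refine ⟨Ordinal.ToType.mk ⟨β, hβ⟩, ?_⟩
  simp

lemma aseq_lt_ord (hκ : ℵ₀ ≤ κ) (h : Ordinal.{u} → Ordinal.{u})
    (hh : ∀ δ < (succ κ).ord, h δ < (succ κ).ord) (α : Ordinal.{u}) (hα : α < (succ κ).ord) :
    aseq h α < (succ κ).ord := by
  induction α using WellFoundedLT.induction with
  | ind α ih =>
    rw [aseq.eq_1 h α]
    have hreg : (succ κ).IsRegular := isRegular_succ hκ
    have hlim : Order.IsSuccLimit (succ κ).ord := Cardinal.isSuccLimit_ord (hκ.trans (le_succ κ))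
    apply Ordinal.iSup_lt_of_lt_cof
    · rw [hreg.cof_ord, Cardinal.mk_toType]
      rw [Cardinal.lt_ord] at hα
      exact hα
    · intro i
      apply hlim.succ_lt
      apply hh
      have hi := (Ordinal.ToType.toOrd i).2
      exact ih _ hi (lt_trans hi hα)

end Main

/-- `Δ(κ)` holds for every infinite cardinal `κ`. -/
theorem result : ∀ κ : Cardinal.{u}, ℵ₀ ≤ κ → Delta κ := by
  classical
  intro κ hκ D hD
  have hκ0 : (0 : Ordinal.{u}) < κ.ord := by
    rw [Cardinal.lt_ord, Ordinal.card_zero]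
    exact aleph0_pos.trans_le hκ
  let z : Set.Iio κ.ord := ⟨0, hκ0⟩
  obtain ⟨g, hg⟩ := exists_good hκ D (fun f => (hD f).2) z
  choose f hf1 hf2 hf3 using hg
  let h : Ordinal.{u} → Ordinal.{u} := fun δ =>
    if hδ : δ < (succ κ).ord then (f δ hδ).dom else 0
  have hh : ∀ δ < (succ κ).ord, h δ < (succ κ).ord := by
    intro δ hδ
    simp only [h]
    rw [dif_pos hδ]
    exact (f δ hδ).dom_lt
  have ha : ∀ a : Set.Iio (succ κ).ord, aseq h a.1 < (succ κ).ord :=
    fun a => aseq_lt_ord hκ h hh a.1 a.2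
  let F : Set.Iio (succ κ).ord → InjFun κ := fun a => f (aseq h a.1) (ha a)
  have hFdom : ∀ a : Set.Iio (succ κ).ord, (F a).dom = h (aseq h a.1) := by
    intro a
    simp only [F, h]
    rw [dif_pos (ha a)]
  have hstep : ∀ a b : Set.Iio (succ κ).ord, a < b → (F a).dom < aseq h b.1 := by
    intro a b hab
    rw [hFdom]
    exact aseq_lt h hab
  have key : ∀ (a b : Set.Iio (succ κ).ord) (ξ : Ordinal.{u}) (ha : ξ < (F a).dom)
      (hb : ξ < (F b).dom), a < b → ξ ∈ D (F b) →
      (F a).toFun ⟨ξ, ha⟩ = (F b).toFun ⟨ξ, hb⟩ := by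
    intro a b ξ hξa hξb hab hξD
    have h1 : ξ < g.dom := hf3 _ (ha b) ξ hξD (hξa.trans (hstep a b hab))
    rw [← ext_eq z (F a) hξa, ← ext_eq z (F b) hξb]
    rw [(hf1 _ (ha a)).2 ξ h1, (hf1 _ (ha b)).2 ξ h1]
  refine ⟨F, ?_, ?_⟩
  · intro a b hab
    exact (hstep a b hab).trans (hf2 _ (ha b))
  · intro a b ξ hξa hξb hDa hDb
    rcases lt_trichotomy a b with hab | hab | hab
    · exact key a b ξ hξa hξb hab hDb
    · subst hab
      rfl
    · exact (key b a ξ hξb hξa hab hDa).symm

end Pool.Agent.Results.MP_028983_lc.DeltaAll
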